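import Mathlib
import Pool.Agent.Helper32.CL.St2

/-!
Module MD of project CL (MP_b2fa09_gt): the master theorem, jets at every point of the flow.
-/

set_option autoImplicit false

namespace Helper18.CL

open Helper32.CL Helper35.PI Helper35.PI2
open scoped ContDiff Manifold Topology ENNReal BigOperators
open MeasureTheory Set Filter

private lemma two_le : (2 : WithTop ℕ∞) ≤ ((⊤ : ℕ∞) : WithTop ℕ∞) := by
  have h : ((2 : ℕ∞) : WithTop ℕ∞) ≤ ((⊤ : ℕ∞) : WithTop ℕ∞) := WithTop.coe_le_coe.2 le_top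
  exact h

/-- norm of a combination of the orthonormal vectors `L (ee k)` -/
private lemma norm_comb {n N : ℕ} (L : EE n →ₗᵢ[ℝ] EE N) (c : Fin n → ℝ) :
    ‖∑ k, c k • L (ee k)‖ ^ 2 = ∑ k, c k ^ 2 := by
  have h1 : ∑ k, c k • L (ee k) = L (∑ k, c k • ee k) := by
    rw [map_sum]
    refine Finset.sum_congr rfl fun k _ => ?_
    rw [map_smul]
  rw [h1, L.norm_map]
  have h2 : ∀ j, (∑ k, c k • (ee k : EE n)) j = c j := by
    intro j
    simp only [ee, WithLp.ofLp_sum, WithLp.ofLp_smul, Finset.sum_apply, Pi.smul_apply,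
      PiLp.single_apply, smul_eq_mul, mul_ite, mul_one, mul_zero]
    simp
  rw [EuclideanSpace.real_norm_sq_eq]
  exact Finset.sum_congr rfl fun j _ => by rw [h2 j]

private lemma inner_L {n N : ℕ} (L : EE n →ₗᵢ[ℝ] EE N) (i j : Fin n) :
    (inner ℝ (L (ee i)) (L (ee j)) : ℝ) = if i = j then 1 else 0 := by
  rw [L.inner_map_map]
  simp only [ee, EuclideanSpace.inner_single_left, map_one, one_mul,
    PiLp.single_apply]

/-- slices in time of a differentiable function -/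
private lemma slice_t {n : ℕ} {V : Type} [NormedAddCommGroup V] [NormedSpace ℝ V]
    (φ : EE n × ℝ → V) (y : EE n) (t : ℝ) (h : DifferentiableAt ℝ φ (y, t)) :
    HasDerivAt (fun s : ℝ => φ (y, s)) (jt φ (y, t)) t := by
  have h2 : HasFDerivAt φ (fderiv ℝ φ (y, t)) (y, t) := h.hasFDerivAt
  have h3 : HasDerivAt (fun τ : ℝ => ((y, τ) : EE n × ℝ)) ((0 : EE n), (1 : ℝ)) t :=
    (hasDerivAt_const t y).prodMk (hasDerivAt_id t)
  exact HasFDerivAt.comp_hasDerivAt (f := fun τ : ℝ => ((y, τ) : EE n × ℝ)) t h2 h3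

/-- slices in space of a differentiable function -/
private lemma slice_x {n : ℕ} {V : Type} [NormedAddCommGroup V] [NormedSpace ℝ V]
    (φ : EE n × ℝ → V) (y : EE n) (t : ℝ) (h : DifferentiableAt ℝ φ (y, t)) :
    HasFDerivAt (fun x : EE n => φ (x, t))
      ((fderiv ℝ φ (y, t)).comp (ContinuousLinearMap.inl ℝ (EE n) ℝ)) y := by
  have h2 : HasFDerivAt φ (fderiv ℝ φ (y, t)) (y, t) := h.hasFDerivAt
  have h3 : HasFDerivAt (fun x : EE n => ((x, t) : EE n × ℝ))
      (ContinuousLinearMap.inl ℝ (EE n) ℝ) y := hasFDerivAt_prodMk_left y t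
  exact HasFDerivAt.comp (f := fun x : EE n => ((x, t) : EE n × ℝ)) y h2 h3

/-- the graph is an immersion at its centre -/
private lemma LI_grf {n N : ℕ} {x₀ : EE N} {L : EE n →ₗᵢ[ℝ] EE N} {u : EE n × ℝ → EE N}
    {t₀ : ℝ} (hG : GraphSol x₀ L u t₀) : LI (grf x₀ L u t₀) 0 := by
  have hd : ∀ i, dv1 (grf x₀ L u t₀) 0 i = L (ee i) := by
    intro i
    have h1 : HasFDerivAt (fun x : EE n => u (x, t₀))
        ((fderiv ℝ u (0, t₀)).comp (ContinuousLinearMap.inl ℝ (EE n) ℝ)) 0 :=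
      slice_x u 0 t₀ (hG.smooth.differentiableAt (by simp))
    have h2 : HasFDerivAt (fun x : EE n => x₀ + L x) L.toContinuousLinearMap 0 := by
      have h2' : HasFDerivAt (fun x : EE n => L.toContinuousLinearMap x)
          L.toContinuousLinearMap 0 := L.toContinuousLinearMap.hasFDerivAt
      exact h2'.const_add x₀
    have h3 := h2.add h1
    have h4 : fderiv ℝ (grf x₀ L u t₀) 0
        = L.toContinuousLinearMap
          + (fderiv ℝ u (0, t₀)).comp (ContinuousLinearMap.inl ℝ (EE n) ℝ) := h3.fderiv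
    have h5 : fderiv ℝ u (0, t₀) (ee i, 0) = 0 := hG.du0 i
    unfold dv1
    rw [h4]
    simp [h5]
  unfold LI
  have h6 : (fun i : Fin n => dv1 (grf x₀ L u t₀) 0 i) = fun i => L (ee i) := funext hd
  rw [h6]
  have h7 : LinearIndependent ℝ (fun i : Fin n => (ee i : EE n)) := by
    have h8 : (fun i : Fin n => (ee i : EE n)) = (EuclideanSpace.basisFun (Fin n) ℝ) := by
      funext i
      simp [ee]
    rw [h8]
    exact (EuclideanSpace.basisFun (Fin n) ℝ).orthonormal.linearIndependent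
  exact h7.map' L.toLinearMap (LinearMap.ker_eq_bot.2 L.injective)

/-- the normal part depends only on the tangent space -/
private lemma nrm_eq (hNR : StNR) {n N : ℕ} {f h : EE n → EE N} {x y : EE n} (hh : LI h x)
    (hf : LI f y) (hs : Submodule.span ℝ (range fun i => dv1 h x i)
      = Submodule.span ℝ (range fun i => dv1 f y i)) (v : EE N) :
    nrm h x v = nrm f y v := by
  obtain ⟨a1, -, a3, -⟩ := hNR n N h x hh
  obtain ⟨b1, -, b3, -⟩ := hNR n N f y hf
  have key : ∀ (g : EE n → EE N) (z : EE n),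
      (∀ v i, (inner ℝ (nrm g z v) (dv1 g z i) : ℝ) = 0) →
      ∀ w ∈ Submodule.span ℝ (range fun i => dv1 g z i), (inner ℝ (nrm g z v) w : ℝ) = 0 := by
    intro g z hg w hw
    induction hw using Submodule.span_induction with
    | mem w hw =>
      obtain ⟨i, rfl⟩ := hw
      exact hg v i
    | zero => simp
    | add a b _ _ ha hb => rw [inner_add_right, ha, hb, add_zero]
    | smul a b _ hb => rw [inner_smul_right, hb, mul_zero]
  have hd : nrm h x v - nrm f y v ∈ Submodule.span ℝ (range fun i => dv1 f y i) := by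
    have h1 := a3 v
    rw [hs] at h1
    have h2 := Submodule.sub_mem _ (b3 v) h1
    have h3 : nrm h x v - nrm f y v = (v - nrm f y v) - (v - nrm h x v) := by abel
    rw [h3]
    exact h2
  have h4 := key f y b1 _ hd
  have h5 := key h x a1 _ (hs ▸ hd)
  have h6 : (inner ℝ (nrm h x v - nrm f y v) (nrm h x v - nrm f y v) : ℝ) = 0 := by
    rw [inner_sub_left, h4, h5, sub_zero]
  exact sub_eq_zero.1 (inner_self_eq_zero.1 h6)

/-- smoothness of the flow at a fixed time in the chart of `p` -/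
private lemma loc_smooth (hI2 : StI2) {n N : ℕ} {M : Type} [TopologicalSpace M]
    [ChartedSpace (EE n) M]
    [IsManifold (𝓡 n) ∞ M] {F : M → ℝ → EE N} (hF : IsMCF (n := n) F) {t : ℝ} (ht : t < 0)
    (p q : M) (hq : q ∈ (chartAt (EE n) p).source) :
    ContDiffAt ℝ ∞ (loc (n := n) F p t) (chartAt (EE n) p q) := by
  have h := hI2 n N M F hF p
  have hmem : (chartAt (EE n) p).target ×ˢ Iio (0 : ℝ) ∈ 𝓝 (chartAt (EE n) p q, t) :=
    prod_mem_nhds ((chartAt (EE n) p).open_target.mem_nhds ((chartAt (EE n) p).map_source hq))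
      (isOpen_Iio.mem_nhds ht)
  have h2 : ContDiffAt ℝ ∞ (fun z : EE n × ℝ => F ((chartAt (EE n) p).symm z.1) z.2)
      (chartAt (EE n) p q, t) := h.contDiffAt hmem
  have h4 : ContDiffAt ℝ ∞ (fun y : EE n => (y, t)) (chartAt (EE n) p q) :=
    contDiffAt_id.prodMk contDiffAt_const
  exact h2.comp (chartAt (EE n) p q) h4

/-- the field may be computed in any chart -/
private lemma WFd_chart (hIV : StIV) (hI2 : StI2) {n N : ℕ} {M : Type} [TopologicalSpace M]
    [ChartedSpace (EE n) M] [IsManifold (𝓡 n) ∞ M] {F : M → ℝ → EE N} (hF : IsMCF (n := n) F)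
    (κ l : ℝ) {c : Co} (hc : c.Smooth)
    {t : ℝ} (ht : t < 0) (p q : M) (hq : q ∈ (chartAt (EE n) p).source) :
    WFd n κ l c F t q = wf κ l c (loc (n := n) F p t) (chartAt (EE n) p q) := by
  have hqq : q ∈ (chartAt (EE n) q).source := mem_chart_source (EE n) q
  have hxt : chartAt (EE n) q q ∈ (chartAt (EE n) q).target :=
    (chartAt (EE n) q).map_source hqq
  have hsymm : (chartAt (EE n) q).symm (chartAt (EE n) q q) = q :=
    (chartAt (EE n) q).left_inv hqq
  have hφ : ContDiffAt ℝ ∞ (fun y => chartAt (EE n) p ((chartAt (EE n) q).symm y))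
      (chartAt (EE n) q q) := by
    have h := contDiffWithinAt_ext_coord_change (I := 𝓡 n) (n := ∞) (𝕜 := ℝ) p q
      (y := chartAt (EE n) q q) (by
        rw [ext_coord_change_source]
        refine ⟨chartAt (EE n) q q, ?_, rfl⟩
        rw [OpenPartialHomeomorph.trans_source]
        refine ⟨hxt, ?_⟩
        change (chartAt (EE n) q).symm (chartAt (EE n) q q) ∈ (chartAt (EE n) p).source
        rw [hsymm]
        exact hq)
    rw [ModelWithCorners.range_eq_univ, contDiffWithinAt_univ] at h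
    exact h
  have hφx : chartAt (EE n) p ((chartAt (EE n) q).symm (chartAt (EE n) q q))
      = chartAt (EE n) p q := by rw [hsymm]
  have heq : loc (n := n) F q t =ᶠ[𝓝 (chartAt (EE n) q q)]
      (fun y => loc (n := n) F p t (chartAt (EE n) p ((chartAt (EE n) q).symm y))) := by
    have hc : ContinuousAt (chartAt (EE n) q).symm (chartAt (EE n) q q) :=
      (chartAt (EE n) q).continuousAt_symm hxt
    have hev : ∀ᶠ y in 𝓝 (chartAt (EE n) q q),
        (chartAt (EE n) q).symm y ∈ (chartAt (EE n) p).source := by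
      apply hc.eventually_mem
      rw [hsymm]
      exact (chartAt (EE n) p).open_source.mem_nhds hq
    filter_upwards [hev] with y hy
    unfold loc
    rw [(chartAt (EE n) p).left_inv hy]
  have hf : ContDiffAt ℝ ∞ (loc (n := n) F p t)
      (chartAt (EE n) p ((chartAt (EE n) q).symm (chartAt (EE n) q q))) := by
    rw [hφx]
    exact loc_smooth hI2 hF ht p q hq
  have h := (hIV n N (loc (n := n) F p t) (loc (n := n) F q t)
    (fun y => chartAt (EE n) p ((chartAt (EE n) q).symm y)) (chartAt (EE n) q q)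
    hf hφ heq (hF.imm q t ht) κ l c hc).2.2.2.2.1
  unfold WFd
  rw [h, hφx]

/-- the divergence of the field is the divergence in the chart -/
private lemma dvg_WFd (hIV : StIV) (hI2 : StI2) {n N : ℕ} {M : Type} [TopologicalSpace M]
    [ChartedSpace (EE n) M] [IsManifold (𝓡 n) ∞ M] {F : M → ℝ → EE N} (hF : IsMCF (n := n) F)
    (κ l : ℝ) {c : Co} (hc : c.Smooth)
    {t : ℝ} (ht : t < 0) (q : M) :
    dvg (n := n) F (WFd n κ l c F t) q t
      = dvc (loc (n := n) F q t) (wf κ l c (loc (n := n) F q t)) (chartAt (EE n) q q) := by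
  have hxt : chartAt (EE n) q q ∈ (chartAt (EE n) q).target :=
    (chartAt (EE n) q).map_source (mem_chart_source (EE n) q)
  have he : (fun y => WFd n κ l c F t ((chartAt (EE n) q).symm y))
      =ᶠ[𝓝 (chartAt (EE n) q q)] wf κ l c (loc (n := n) F q t) := by
    filter_upwards [(chartAt (EE n) q).open_target.mem_nhds hxt] with y hy
    rw [WFd_chart hIV hI2 hF κ l hc ht q _ ((chartAt (EE n) q).map_target hy),
      (chartAt (EE n) q).right_inv hy]
  unfold dvg dvc
  rw [he.fderiv_eq]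

/-- Module MD. -/
theorem hMD (hGC : StGC) (_hML : StML) (hIV : StIV) (hSS : StSS) (hWJ : StWJ)
    (hGV : StGV) (hMA : StMA) (hMT : StMT) (hIB : StIB) (hC1 : StC1) (hC2 : StC2)
    (hC3 : StC3) (hSM : StSM) (hI1 : StI1) (hI2 : StI2) (hI3 : StI3) (hG1 : StG1)
    (hG2 : StG2) (hG7 : StG7) (hG9 : StG9) (hGH : StGH) (hNR : StNR) : StMD := by
  intro n N M _ _ _ F hF q t ht
  set e := chartAt (EE n) q with he
  set f : EE n × ℝ → EE N := fun z => F (e.symm z.1) z.2 with hf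
  set y₀ : EE n := e q with hy₀
  have hsm := hI2 n N M F hF q
  have hopen : IsOpen (e.target ×ˢ Iio (0 : ℝ)) := e.open_target.prod isOpen_Iio
  have hy₀t : y₀ ∈ e.target := e.map_source (mem_chart_source (EE n) q)
  have hmem : (y₀, t) ∈ e.target ×ˢ Iio (0 : ℝ) := ⟨hy₀t, ht⟩
  have hfat : ∀ z ∈ e.target ×ˢ Iio (0 : ℝ), ContDiffAt ℝ ∞ f z := fun z hz =>
    (hsm z hz).contDiffAt (hopen.mem_nhds hz)
  have hLI : LI (fun y => f (y, t)) y₀ := hF.imm q t ht
  obtain ⟨L, hL⟩ := hC1 n N (fun i => dv1 (fun y => f (y, t)) y₀ i) hLI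
  obtain ⟨ψ, hψs, hψ0, hψe⟩ := hC2 n N f y₀ t L (hfat _ hmem) hLI hL
  have hpde : ∀ᶠ z in 𝓝 (y₀, t), jt f z = mcv (fun y => f (y, z.2)) z.1 := by
    filter_upwards [hopen.mem_nhds hmem] with z hz
    have h1 : HasDerivAt (fun τ => F (e.symm z.1) τ) (HH (n := n) F (e.symm z.1) z.2) z.2 :=
      hF.flow _ _ hz.2
    have h4 : HasDerivAt (fun τ : ℝ => f (z.1, τ)) (jt f (z.1, z.2)) z.2 :=
      slice_t f z.1 z.2 ((hfat z hz).differentiableAt (by simp))
    have h5 : jt f z = HH (n := n) F (e.symm z.1) z.2 := h4.unique h1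
    have h6 := (hI3 n N M F hF q (e.symm z.1) z.2 hz.2 (e.map_target hz.1)).2.1
    rw [h5, h6]
    have h7 : (chartAt (EE n) q) (e.symm z.1) = z.1 := e.right_inv hz.1
    rw [h7]
    rfl
  set x₀ : EE N := f (y₀, t) with hx₀
  have hx₀F : x₀ = F q t := by
    show F (e.symm (e q)) t = F q t
    rw [e.left_inv (mem_chart_source (EE n) q)]
  set u : EE n × ℝ → EE N := fun z => f (ψ z, z.2) - x₀ - L z.1 with hu
  obtain ⟨hG, hev⟩ := hC3 n N f y₀ t L ψ (hfat _ hmem) hLI hL hpde hψs hψ0 hψe u rfl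
  obtain ⟨hs1, hs2, hs3, -⟩ := hG1 n N x₀ L u t hG
  obtain ⟨-, hX0, -, -⟩ := hG7 n N x₀ L u t hG (jgg u (0, t)) (jggg u (0, t)) rfl rfl
  obtain ⟨-, hZ0, -, -⟩ := hG9 n N x₀ L u t hG (jgg u (0, t)) (jggg u (0, t)) rfl rfl
  obtain ⟨-, hH0, -⟩ := hGH n N x₀ L u t hG (jgg u (0, t)) (jggg u (0, t)) rfl rfl
  obtain ⟨-, a2, a3, a4⟩ := hev.self_of_nhds
  simp only [hψ0] at a2 a3 a4
  -- the jets
  set A : Fin n → Fin n → EE N := jgg u (0, t) with hA
  set T : Fin n → Fin n → Fin n → EE N := jggg u (0, t) with hT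
  set v : Fin n → ℝ := fun k => inner ℝ x₀ (L (ee k)) with hv
  set ν : EE N := x₀ - ∑ k, v k • L (ee k) with hν
  have hJ : IsJet x₀ L u t A T ν v := ⟨rfl, rfl, rfl, rfl⟩
  have hνL : ∀ j, (inner ℝ ν (L (ee j)) : ℝ) = 0 := by
    intro j
    rw [hν, inner_sub_left, sum_inner]
    have h1 : ∀ k, (inner ℝ (v k • L (ee k)) (L (ee j)) : ℝ)
        = if k = j then v j else 0 := by
      intro k
      rw [real_inner_smul_left, inner_L]
      split_ifs with h
      · rw [h, mul_one]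
      · rw [mul_zero]
    rw [Finset.sum_congr rfl (fun k _ => h1 k), Finset.sum_ite_eq' Finset.univ j]
    simp [hv]
  have hAL : ∀ k, (inner ℝ (L (ee k)) (Hv A) : ℝ) = 0 := by
    intro k
    unfold Hv
    rw [inner_sum]
    refine Finset.sum_eq_zero fun i _ => ?_
    rw [real_inner_comm]
    exact hs3 i i (ee k)
  have hxν : x₀ = ν + ∑ k, v k • L (ee k) := by rw [hν]; abel
  have hHH : HH (n := n) F q t = Hv A := by
    have h1 : HH (n := n) F q t = mcv (fun y => f (y, t)) y₀ := rfl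
    rw [h1, ← a2]
    exact hH0
  -- invariance under the reparametrisation
  have hψc : ContinuousAt ψ ((0 : EE n), t) := hψs.continuousAt
  have hψmem : ∀ᶠ z in 𝓝 ((0 : EE n), t), (ψ z, z.2) ∈ e.target ×ˢ Iio (0 : ℝ) := by
    have h1 : ContinuousAt (fun z : EE n × ℝ => (ψ z, z.2)) ((0 : EE n), t) :=
      hψc.prodMk continuousAt_snd
    refine h1.eventually_mem ?_
    show e.target ×ˢ Iio (0 : ℝ) ∈ 𝓝 (ψ (0, t), t)
    rw [hψ0]
    exact hopen.mem_nhds hmem
  have hψ2 : ∀ᶠ z in 𝓝 ((0 : EE n), t), ContDiffAt ℝ 2 ψ z := by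
    have h1 : ContDiffAt ℝ 2 ψ ((0 : EE n), t) := hψs.of_le two_le
    exact h1.eventually (by simp)
  have hwv : ∀ᶠ z in 𝓝 ((0 : EE n), t), ∀ l : ℝ,
      wvl l (grf x₀ L u z.2) z.1 = wvl l (fun y => f (y, z.2)) (ψ z) := by
    filter_upwards [hev, hG2 n N x₀ L u t hG, hψmem, hψ2] with z hz hz2 hz3 hz4 l
    obtain ⟨b1, b2, -, -⟩ := hz
    obtain ⟨-, -, -, -, b5⟩ := hz2
    have c1 : ContDiffAt ℝ 2 (fun y => f (y, z.2)) ((fun x : EE n => ψ (x, z.2)) z.1) := by
      have h0 : ContDiffAt ℝ 2 f (ψ z, z.2) := (hfat _ hz3).of_le two_le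
      have h1 : ContDiffAt ℝ 2 (fun y : EE n => ((y, z.2) : EE n × ℝ)) (ψ z) :=
        contDiffAt_id.prodMk contDiffAt_const
      exact ContDiffAt.comp (f := fun y : EE n => ((y, z.2) : EE n × ℝ)) (g := f) (ψ z) h0 h1
    have c2 : ContDiffAt ℝ 2 (fun x : EE n => ψ (x, z.2)) z.1 := by
      have h1 : ContDiffAt ℝ 2 (fun y : EE n => ((y, z.2) : EE n × ℝ)) z.1 :=
        contDiffAt_id.prodMk contDiffAt_const
      exact ContDiffAt.comp (f := fun y : EE n => ((y, z.2) : EE n × ℝ)) (g := ψ) z.1 hz4 h1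
    have c3 : grf x₀ L u z.2 =ᶠ[𝓝 z.1]
        (fun y => (fun y' => f (y', z.2)) ((fun x : EE n => ψ (x, z.2)) y)) := by
      refine Eventually.of_forall fun x => ?_
      show x₀ + L x + (f (ψ (x, z.2), z.2) - x₀ - L x) = f (ψ (x, z.2), z.2)
      abel
    obtain ⟨d1, -, -, -, d5⟩ := hI1 n N (fun y => f (y, z.2)) (grf x₀ L u z.2)
      (fun x : EE n => ψ (x, z.2)) z.1 c1 c2 c3 b5
    have d6 := nrm_eq hNR b5 d1 d5 (f (ψ z, z.2))
    show nrm (grf x₀ L u z.2) z.1 (grf x₀ L u z.2 z.1) + l • mcv (grf x₀ L u z.2) z.1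
      = nrm (fun y => f (y, z.2)) (ψ z) (f (ψ z, z.2)) + l • mcv (fun y => f (y, z.2)) (ψ z)
    rw [b1, b2, d6]
  have hf1 : ContDiffAt ℝ ∞ (loc (n := n) F q t) (ψ (0, t)) := by
    rw [hψ0]
    have h1 : ContDiffAt ℝ ∞ (fun y : EE n => ((y, t) : EE n × ℝ)) y₀ :=
      contDiffAt_id.prodMk contDiffAt_const
    exact ContDiffAt.comp (f := fun y : EE n => ((y, t) : EE n × ℝ)) (g := f) y₀
      (hfat _ hmem) h1
  have hφ1 : ContDiffAt ℝ ∞ (fun x : EE n => ψ (x, t)) 0 := by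
    have h1 : ContDiffAt ℝ ∞ (fun y : EE n => ((y, t) : EE n × ℝ)) 0 :=
      contDiffAt_id.prodMk contDiffAt_const
    exact ContDiffAt.comp (f := fun y : EE n => ((y, t) : EE n × ℝ)) (g := ψ) 0 hψs h1
  have heq : grf x₀ L u t =ᶠ[𝓝 (0 : EE n)]
      (fun y => loc (n := n) F q t ((fun x : EE n => ψ (x, t)) y)) := by
    refine Eventually.of_forall fun x => ?_
    show x₀ + L x + (f (ψ (x, t), t) - x₀ - L x) = f (ψ (x, t), t)
    abel
  refine ⟨A, T, ν, v, hs1, hs2, ?_, hHH, ?_, ?_, ?_, ?_, ?_, ?_⟩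
  · have h1 : AA (n := n) F q t = nsq (fun y => f (y, t)) y₀ := rfl
    rw [h1, ← a3]
    exact hX0
  · have h1 : ZF (n := n) F q t = zsq (fun y => f (y, t)) y₀ := rfl
    rw [h1, ← a4]
    exact hZ0
  · intro l
    have h1 := (hWJ n N x₀ L u t hG A T ν v hJ l).2.1
    have h2 := hwv.self_of_nhds l
    simp only [hψ0] at h2
    rw [← h1]
    exact h2.symm
  · rw [← hx₀F, ← norm_comb L v]
    have h1 : (inner ℝ ν (∑ k, v k • L (ee k)) : ℝ) = 0 := by
      rw [inner_sum]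
      refine Finset.sum_eq_zero fun k _ => ?_
      rw [real_inner_smul_right, hνL, mul_zero]
    conv_lhs => rw [hxν]
    rw [norm_add_sq_real, h1]
    ring
  · rw [← hx₀F, hHH]
    conv_lhs => rw [hxν]
    rw [inner_add_left, sum_inner]
    have h1 : ∑ k, (inner ℝ (v k • L (ee k)) (Hv A) : ℝ) = 0 := by
      refine Finset.sum_eq_zero fun k _ => ?_
      rw [real_inner_smul_left, hAL, mul_zero]
    rw [h1, add_zero]
  · intro μ
    obtain ⟨hv1, hd⟩ := hGV n N x₀ L u t hG A T rfl rfl μ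
    set Φ : EE n × ℝ → ℝ := fun z =>
      2 * nsq (fun y => f (y, z.2)) z.1 - ‖mcv (fun y => f (y, z.2)) z.1‖ ^ 2 with hΦ
    obtain ⟨-, -, -, -, -, -, -, hm, hn, -⟩ := hSM n N f (y₀, t) (hfat _ hmem) hLI
    have hΦs : ContDiffAt ℝ ∞ Φ (y₀, t) :=
      (contDiffAt_const.mul hn).sub (hm.norm_sq ℝ)
    have hΦd : HasDerivAt (fun s : ℝ => Φ (y₀, s)) (jt Φ (y₀, t)) t :=
      slice_t Φ y₀ t (hΦs.differentiableAt (by simp))
    have hMT2 := (hMT n N f y₀ t L ψ (hfat _ hmem) hLI hL hpde hψs hψ0 hψe).2 Φ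
      (hΦs.of_le (by exact_mod_cast le_top))
    have hgerm : (fun z => Φ (ψ z, z.2))
        =ᶠ[𝓝 ((0 : EE n), t)] (fun z => 2 * Xf x₀ L u z - Yf x₀ L u z) := by
      filter_upwards [hev] with z hz
      obtain ⟨-, b2, b3, -⟩ := hz
      show 2 * nsq (fun y => f (y, z.2)) (ψ z) - ‖mcv (fun y => f (y, z.2)) (ψ z)‖ ^ 2
        = 2 * nsq (grf x₀ L u z.2) z.1 - ‖mcv (grf x₀ L u z.2) z.1‖ ^ 2
      rw [b2, b3]
    have hjt : jt (fun z => Φ (ψ z, z.2)) (0, t)
        = jt (fun z => 2 * Xf x₀ L u z - Yf x₀ L u z) (0, t) := by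
      unfold jt
      rw [hgerm.fderiv_eq]
    obtain ⟨i1, i2⟩ := hIB n N (loc (n := n) F q t) (grf x₀ L u t)
      (fun x : EE n => ψ (x, t)) 0 hf1 hφ1 heq (LI_grf hG) μ
    simp only [hψ0] at i1 i2
    have hMA4 := (hMA n N M F hF μ t ht).2.2.2 q
    have hVF : VF n μ F t q = ∑ k, vk μ A T k • L (ee k) := by
      rw [← hv1, i1]
      rfl
    refine ⟨?_, ?_⟩
    · rw [hVF]
      exact norm_comb L _
    · have hval : jt Φ (y₀, t) = dvg (n := n) F (VF n μ F t) q t
          + 2 * (1 + μ) * hX A T - hY A T + 4 * μ * eq2 T - 4 * μ * AAH A := by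
        rw [← hMT2, hjt, hd, hMA4, i2]
      rw [← hval]
      exact hΦd
  · intro κ l c hc
    obtain ⟨g1, g2⟩ := hGC n N x₀ L u t hG A T ν v hJ κ l c hc
    obtain ⟨-, -, -, -, i1, i2⟩ := hIV n N (loc (n := n) F q t) (grf x₀ L u t)
      (fun x : EE n => ψ (x, t)) 0 hf1 hφ1 heq (LI_grf hG) κ l c hc
    simp only [hψ0] at i1 i2
    have hW : WFd n κ l c F t q = Real.exp (-(κ * ‖x₀‖ ^ 2 / 2)) •
        ∑ k, (gph l c A T ν v k + Va κ c A v k) • L (ee k) := by
      rw [← g1, i1]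
      rfl
    refine ⟨?_, ?_⟩
    · rw [hW, norm_smul, mul_pow, norm_comb L, ← hx₀F, Real.norm_eq_abs, sq_abs]
    · rw [dvg_WFd hIV hI2 hF κ l hc ht q, ← hx₀F]
      have h0 : dvc (loc (n := n) F q t) (wf κ l c (loc (n := n) F q t))
          (chartAt (EE n) q q)
          = Real.exp (-(κ * ‖x₀‖ ^ 2 / 2)) *
            (jt (fun z => c.φ (i4f l x₀ L u z)) (0, t) + dvA κ l c A T ν v) := by
        rw [← g2, i2]
      rw [h0]
      set Φ : EE n × ℝ → ℝ := fun z => c.φ (i4 l (fun y => f (y, z.2)) z.1) with hΦ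
      have hΦs : ContDiffAt ℝ ∞ Φ (y₀, t) := by
        have h1 := (hSS n N f (y₀, t) (hfat _ hmem) hLI κ l c hc).1
        exact (hc.sφ.contDiffAt).comp (y₀, t) h1
      have hΦd : HasDerivAt (fun s : ℝ => Φ (y₀, s)) (jt Φ (y₀, t)) t :=
        slice_t Φ y₀ t (hΦs.differentiableAt (by simp))
      have hMT2 := (hMT n N f y₀ t L ψ (hfat _ hmem) hLI hL hpde hψs hψ0 hψe).2 Φ
        (hΦs.of_le (by exact_mod_cast le_top))
      have hgerm : (fun z => Φ (ψ z, z.2))
          =ᶠ[𝓝 ((0 : EE n), t)] (fun z => c.φ (i4f l x₀ L u z)) := by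
        filter_upwards [hev, hwv] with z hz hz2
        obtain ⟨-, b2, b3, b4⟩ := hz
        have b5 := hz2 l
        show c.φ (nsq (fun y => f (y, z.2)) (ψ z), ‖mcv (fun y => f (y, z.2)) (ψ z)‖ ^ 2,
            zsq (fun y => f (y, z.2)) (ψ z), ‖wvl l (fun y => f (y, z.2)) (ψ z)‖ ^ 2)
          = c.φ (nsq (grf x₀ L u z.2) z.1, ‖mcv (grf x₀ L u z.2) z.1‖ ^ 2,
            zsq (grf x₀ L u z.2) z.1, ‖wvl l (grf x₀ L u z.2) z.1‖ ^ 2)
        rw [b2, b3, b4, b5]
      have hjt : jt (fun z => Φ (ψ z, z.2)) (0, t)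
          = jt (fun z => c.φ (i4f l x₀ L u z)) (0, t) := by
        unfold jt
        rw [hgerm.fderiv_eq]
      have hd : deriv (fun s => c.φ (i4F n l F q s)) t = jt Φ (y₀, t) := hΦd.deriv
      rw [hd, ← hMT2, hjt]

end Helper18.CL
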